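import Pool.Agent.H92.SG.Stmts

/-!
MP_046772_gt, module BLKC of board `sg7`: the colourings of the connected sum which are constant
under all blocks.
-/

set_option autoImplicit false

namespace Pool.Agent.H12.SG

open Pool.Agent.H92.SG

theorem sh_mem_Bn {n : ℕ} {x : B} (hx : x ∈ Bn n) : sh x ∈ Bn (n + 1) := by
  refine Bn_induction (p := fun x => sh x ∈ Bn (n + 1)) ?_ ?_ ?_ ?_ hx
  · rw [map_one]; exact one_mem _
  · intro i hi
    rw [sh_σ]
    exact σ_mem_Bn (by omega)
  · intro x _ y _ hx hy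
    rw [map_mul]
    exact mul_mem hx hy
  · intro x _ hx
    rw [map_inv]
    exact inv_mem hx

theorem sh_iter_mem_Bn (m : ℕ) {n : ℕ} {x : B} (hx : x ∈ Bn n) : (sh^[m]) x ∈ Bn (n + m) := by
  induction m with
  | zero => exact hx
  | succ m ih =>
    rw [Function.iterate_succ_apply']
    exact sh_mem_Bn ih

theorem β77_mem : β77 ∈ Bn 4 := by
  have h0 : σ 0 ∈ Bn 4 := σ_mem_Bn (by omega)
  have h1 : σ 1 ∈ Bn 4 := σ_mem_Bn (by omega)
  have h2 : σ 2 ∈ Bn 4 := σ_mem_Bn (by omega)
  unfold β77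
  exact mul_mem (mul_mem (mul_mem (mul_mem (mul_mem (mul_mem (inv_mem h0) h1) (inv_mem h0)) h1)
    (inv_mem h2)) h1) (inv_mem h2)

theorem nfold_mem (n : ℕ) : nfold 4 β77 n ∈ Bn (3 * n + 1) := by
  induction n with
  | zero => exact one_mem _
  | succ n ih =>
    show nfold 4 β77 n * (sh^[n * (4 - 1)]) β77 ∈ Bn (3 * (n + 1) + 1)
    refine mul_mem (Bn_mono (by omega) ih) ?_
    have := sh_iter_mem_Bn (n * (4 - 1)) β77_mem
    exact Bn_mono (by omega) this

theorem dih_mul' (A : Type) [CommRing A] (x y : B) (a : ℕ → A) :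
    dih A (x * y) a = dih A x (dih A y a) := by
  rw [map_mul]; rfl

/-- `β77` fixes the colouring `(0, y, y, 0)` if `3y = 0`. -/
theorem β77_fix (hA : DihA) (A : Type) [CommRing A] (a : ℕ → A) (y : A) (hy : 3 * y = 0)
    (h0 : a 0 = 0) (h1 : a 1 = y) (h2 : a 2 = y) (h3 : a 3 = 0) : dih A β77 a = a := by
  unfold β77
  simp only [dih_mul', hA.σ_apply, hA.σ_inv_apply]
  funext j
  rcases j with _ | _ | _ | _ | j
  · simp [h0, h1, h2, h3]
    linear_combination (-6 : A) * hy
  · simp [h0, h1, h2, h3]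
    linear_combination (2 : A) * hy
  · simp [h0, h1, h2, h3]
    linear_combination (5 : A) * hy
  · simp [h1, h2, h3]
    linear_combination (1 : A) * hy
  · simp

theorem dih_sh_fix (hA : DihA) (A : Type) [CommRing A] (x : B) (m : ℕ) : ∀ a : ℕ → A,
    dih A x (fun j => a (m + j)) = (fun j => a (m + j)) → dih A ((sh^[m]) x) a = a := by
  induction m with
  | zero =>
    intro a h
    simpa using h
  | succ m ih =>
    intro a h
    rw [Function.iterate_succ_apply']
    have h' : dih A ((sh^[m]) x) (fun j => a (j + 1)) = fun j => a (j + 1) := by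
      refine ih (fun j => a (j + 1)) ?_
      have e : (fun j => (fun j => a (j + 1)) (m + j)) = fun j => a (m + 1 + j) := by
        funext j
        show a (m + j + 1) = a (m + 1 + j)
        congr 1
        omega
      rw [e]
      exact h
    funext j
    cases j with
    | zero => exact hA.sh0 A _ a
    | succ j =>
      rw [hA.sh1 A _ a j, h']

theorem pat_three {k : ℕ} (z : ℕ) :
    (3 : ZMod (3 ^ (k + 1))) * ((3 ^ k * z : ℕ) : ZMod (3 ^ (k + 1))) = 0 := by
  have h : ((3 ^ (k + 1) * z : ℕ) : ZMod (3 ^ (k + 1))) = 0 := by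
    rw [Nat.cast_mul, ZMod.natCast_self, zero_mul]
  have e : (3 ^ (k + 1) * z : ℕ) = 3 * (3 ^ k * z) := by ring
  rw [e, Nat.cast_mul] at h
  exact_mod_cast h

theorem block_fix (hA : DihA) {n k : ℕ} {z : ℕ → ℕ} {a : ℕ → ZMod (3 ^ (k + 1))}
    (h : Pat n k z a) (j : ℕ) (hj : j < n) :
    dih _ β77 (fun i => a (3 * j + i)) = fun i => a (3 * j + i) := by
  have hp := h.2 j hj
  refine β77_fix hA _ _ ((3 ^ k * z j : ℕ) : ZMod (3 ^ (k + 1))) (pat_three (z j)) ?_ hp.1 hp.2 ?_
  · exact h.1 j (by omega)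
  · have := h.1 (j + 1) (by omega)
    exact this

theorem nfold_fix (hA : DihA) (n k : ℕ) (z : ℕ → ℕ) (a : ℕ → ZMod (3 ^ (k + 1)))
    (h : Pat n k z a) : dih _ (nfold 4 β77 n) a = a := by
  induction n with
  | zero =>
    show dih _ 1 a = a
    rw [map_one]
    rfl
  | succ n ih =>
    show dih _ (nfold 4 β77 n * (sh^[n * (4 - 1)]) β77) a = a
    rw [dih_mul']
    have h1 := block_fix hA h n (by omega)
    have h2 : dih _ ((sh^[n * (4 - 1)]) β77) a = a := by
      refine dih_sh_fix hA _ β77 (n * (4 - 1)) a ?_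
      have e : n * (4 - 1) = 3 * n := by omega
      rw [e]
      exact h1
    rw [h2]
    exact ih ⟨fun j hj => h.1 j (by omega), fun j hj => h.2 j (by omega)⟩

/-- BLKC -/
theorem BLKC_thm (hA : DihA) : BlkColStmt :=
  ⟨nfold_mem, fun n k z a h => ⟨nfold_fix hA n k z a h, fun j hj => block_fix hA h j hj⟩⟩

end Pool.Agent.H12.SG
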